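import Pool.Agent.Hp428.NL.LocB

set_option autoImplicit false

/-!
# More local theorems: zeros near the line, one sum with an upper bound, zeros far to the right
-/

namespace Pool.Agent.Hp428.NLoc

open Complex Filter Topology Set
open Pool.Agent.Hp428.LS (GG GG_diff)
open scoped ComplexConjugate

/-- the upper bound on both sides -/
lemma both_sides {ε R L q ν R1 : ℝ} {F : ℂ → ℂ} (hF : NR ε R L F) (hL : 0 ≤ L) (hR1 : 2 ≤ R1)
    (hI : ∀ w : ℂ, |w.re| ≤ q → |w.im| ≤ 1 → ‖F w‖ ≤ Real.exp (L * (q + ν)))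
    (hr : ∀ w : ℂ, q ≤ w.re → w.re ≤ R1 → |w.im| ≤ R1 → ‖F w‖ ≤ Real.exp (L * (w.re + ν))) :
    ∀ w : ℂ, |w.re| ≤ 2 → |w.im| ≤ 1 → ‖F w‖ ≤ Real.exp (L * (max |w.re| q + ν)) := by
  intro w w1 w2
  rcases le_or_gt |w.re| q with h1 | h1
  · rw [max_eq_right h1]
    exact hI w h1 w2
  · rw [max_eq_left h1.le]
    obtain ⟨w', hw', hw2, hw3⟩ : ∃ w' : ℂ, ‖F w'‖ = ‖F w‖ ∧ w'.re = |w.re| ∧ w'.im = w.im := by
      rcases le_total 0 w.re with h4 | h4
      · exact ⟨w, rfl, (abs_of_nonneg h4).symm, rfl⟩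
      · exact ⟨-conj w, hF.nsymm w, by rw [abs_of_nonpos h4]; simp, by simp⟩
    rw [← hw']
    have k := hr w' (by rw [hw2]; linarith) (by rw [hw2]; linarith) (by rw [hw3]; linarith)
    rwa [hw2] at k

/-- **Zero-free windows, the same shift: the zeros are near the line.** -/
theorem locC (b δ : ℝ) (hb : 0 < b) (hb1 : b < 1 / 2) (hδ : 0 < δ) (hδ1 : δ ≤ 1 / 2) :
    ∃ ε R L0 : ℝ, 0 < ε ∧ 1 ≤ R ∧ 0 < L0 ∧ ∀ (L : ℝ) (F : ℂ → ℂ), L0 ≤ L → NR ε R L F →
      (∀ u : ℂ, b + δ / 8 < u.re → u.re < R → |u.im| < R → F u ≠ 0) →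
      ∀ (c d : ℂ), ‖c‖ = 1 → ‖d‖ = 1 → ∀ u : ℂ, δ ≤ u.re → u.re ≤ 1 → |u.im| ≤ 1 → GG c d b F u ≠ 0 := by
  obtain ⟨q, hq⟩ : ∃ q : ℝ, q = b + δ / 4 := ⟨_, rfl⟩
  have hq0 : 0 < q := by rw [hq]; linarith
  obtain ⟨ν, hνd⟩ : ∃ ν : ℝ, ν = min δ b / 8 := ⟨_, rfl⟩
  have hmin : 0 < min δ b := lt_min hδ hb
  have hν : 0 < ν := by rw [hνd]; linarith
  have hν1 : 8 * ν ≤ δ := by rw [hνd]; linarith [min_le_left δ b]
  have hν2 : 8 * ν ≤ b := by rw [hνd]; linarith [min_le_right δ b]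
  obtain ⟨κ1, R1, hκ1, hR1, HC⟩ := convx q ν 1 hq0 (by linarith) hν le_rfl
  obtain ⟨κ, hκd⟩ : ∃ κ : ℝ, κ = min κ1 ν := ⟨_, rfl⟩
  have hκ : 0 < κ := by rw [hκd]; exact lt_min hκ1 hν
  have hκa : κ ≤ κ1 := by rw [hκd]; exact min_le_left _ _
  have hκb : κ ≤ ν := by rw [hκd]; exact min_le_right _ _
  obtain ⟨ε, R, hε, hR, HP⟩ := profF (b + δ / 8) (δ / 8) κ (R1 + 2) (by linarith) (by linarith) hκ (by linarith)
  refine ⟨min ε 1, R, 1, lt_min hε one_pos, by linarith, one_pos, ?_⟩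
  intro L F hL hF hnz c d hc hd u hu1 hu2 hu3 hu0
  have hLp : 0 < L := by linarith
  have hP := HP L F hLp (hF.mono (min_le_left _ _) le_rfl hLp.le) hnz
  have hI := HC (min ε 1) L R F hLp (min_le_right _ _) (by linarith) hF (fun v hv => by
    have e1 : ((q : ℂ) + v * I).re = q := by simp
    have e2 : ((q : ℂ) + v * I).im = v := by simp
    have k := (hP ((q : ℂ) + v * I) (by rw [e1, hq]; linarith) (by rw [e1]; linarith) (by rw [e2]; linarith)).2.1
    rw [e1] at k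
    refine k.trans (Real.exp_le_exp.2 ?_)
    exact mul_le_mul_of_nonneg_left (by linarith) hLp.le)
  have hU := both_sides (R1 := R1 + 2) hF hLp.le (by linarith) hI (fun w w1 w2 w3 => by
    refine (hP w (by linarith) w2 w3).2.1.trans (Real.exp_le_exp.2 ?_)
    exact mul_le_mul_of_nonneg_left (by linarith) hLp.le)
  have hEq : ‖F (u + b)‖ = ‖F (u - b)‖ := by
    unfold GG at hu0
    have h7 : c * F (u + b) = -(d * F (u - b)) := by linear_combination hu0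
    have h8 := congrArg norm h7
    rw [norm_neg, norm_mul, norm_mul, hc, hd, one_mul, one_mul] at h8
    exact h8
  have e1 : (u + (b : ℂ)).re = u.re + b := by simp
  have e2 : (u + (b : ℂ)).im = u.im := by simp
  have e3 : (u - (b : ℂ)).re = u.re - b := by simp
  have e4 : (u - (b : ℂ)).im = u.im := by simp
  have a1 := (hP (u + b) (by rw [e1]; linarith) (by rw [e1]; linarith) (by rw [e2]; linarith)).1
  have a2 := hU (u - b) (by rw [e3, abs_le]; constructor <;> linarith) (by rw [e4]; exact hu3)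
  rw [e1, hEq] at a1
  rw [e3] at a2
  have k3 := a1.trans a2
  rw [Real.exp_le_exp] at k3
  have k4 : max |u.re - b| q ≤ u.re + b - 3 * ν := by
    apply max_le
    · rw [abs_le]
      constructor <;> linarith
    · linarith
  have k5 : L * (max |u.re - b| q + ν) ≤ L * (u.re + b - 2 * ν) :=
    mul_le_mul_of_nonneg_left (by linarith) hLp.le
  have k6 : L * (u.re + b - 2 * ν) < L * (u.re + b - κ) := mul_lt_mul_of_pos_left (by linarith) hLp
  linarith

/-- **One sum of shifts without zeros to the right of the line, and an upper bound.** -/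
theorem locD (b δ : ℝ) (hb : 0 < b) (hb1 : b < 1 / 2) (hδ : 0 < δ) (hδ1 : δ ≤ 1 / 2) :
    ∃ ε R L0 ν : ℝ, 0 < ε ∧ 1 ≤ R ∧ 0 < L0 ∧ 0 < ν ∧ ∀ (L : ℝ) (F : ℂ → ℂ) (c d : ℂ), L0 ≤ L → ‖c‖ = 1 →
      ‖d‖ = 1 → NR ε R L F → (∀ u : ℂ, δ / 8 < u.re → u.re < R → |u.im| < R → GG c d b F u ≠ 0) →
      (∀ w : ℂ, |w.re| ≤ 2 → |w.im| ≤ 1 → ‖F w‖ ≤ Real.exp (L * (max |w.re| b + ν))) →
      ∀ u : ℂ, b + δ ≤ u.re → u.re ≤ 1 → |u.im| ≤ 1 → F u ≠ 0 := by
  obtain ⟨ν, hνd⟩ : ∃ ν : ℝ, ν = min δ b / 8 := ⟨_, rfl⟩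
  have hmin : 0 < min δ b := lt_min hδ hb
  have hν : 0 < ν := by rw [hνd]; linarith
  have hν1 : 8 * ν ≤ δ := by rw [hνd]; linarith [min_le_left δ b]
  have hν2 : 8 * ν ≤ b := by rw [hνd]; linarith [min_le_right δ b]
  obtain ⟨ε, R, L0, hε, hR, hL0, HP⟩ := profG b (δ / 8) (δ / 8) ν 2 hb (by linarith) (by linarith) hν
    (by linarith)
  refine ⟨ε, R, L0, ν, hε, by linarith, hL0, hν, ?_⟩
  intro L F c d hL hc hd hF hn hU w w1 w2 w3 hw0
  have hLp : 0 < L := by linarith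
  have P1 := HP L F c d hL hc hd hF hn
  obtain ⟨u, hu⟩ : ∃ u : ℂ, u = w - b := ⟨_, rfl⟩
  have e1 : u.re = w.re - b := by rw [hu]; simp
  have e2 : u.im = w.im := by rw [hu]; simp
  have a1 := (P1 u (by rw [e1]; linarith) (by rw [e1]; linarith) (by rw [e2]; linarith)).1
  unfold GG at a1
  have e4 : u + b = w := by rw [hu]; ring
  rw [e4, hw0, mul_zero, zero_add, norm_mul, hd, one_mul] at a1
  have e5 : (u - b).re = w.re - 2 * b := by rw [hu]; simp; ring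
  have e6 : (u - b).im = w.im := by rw [hu]; simp
  have a2 := hU (u - b) (by rw [e5, abs_le]; constructor <;> linarith) (by rw [e6]; exact w3)
  rw [e5] at a2
  have k3 := a1.trans a2
  rw [Real.exp_le_exp, e1] at k3
  have k4 : max |w.re - 2 * b| b ≤ w.re - 4 * ν := by
    apply max_le
    · rw [abs_le]
      constructor <;> linarith
    · linarith
  have k5 : L * (max |w.re - 2 * b| b + ν) ≤ L * (w.re - 3 * ν) :=
    mul_le_mul_of_nonneg_left (by linarith) hLp.le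
  have k6 : L * (w.re - 3 * ν) < L * (w.re - b + b - ν) := mul_lt_mul_of_pos_left (by linarith) hLp
  linarith

/-- **No zeros far to the right.** -/
theorem far {b : ℝ} (hb : 0 < b) {L R R' ε : ℝ} {F : ℂ → ℂ} {c d : ℂ} (hL : 0 < L) (hc : ‖c‖ = 1) (hd : ‖d‖ = 1)
    (hR' : R + b ≤ R') (hε : 4 * ε ≤ min b (1 / 4)) (hε0 : 0 < ε) (hF : NR ε R' L F) (u : ℂ) (h1 : 1 / 2 ≤ u.re)
    (h2 : u.re ≤ R) (h3 : |u.im| ≤ R) : GG c d b F u ≠ 0 := by
  intro hu0
  obtain ⟨μ, hμd⟩ : ∃ μ : ℝ, μ = min b (1 / 4) := ⟨_, rfl⟩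
  rw [← hμd] at hε
  have hμ1 : μ ≤ b := by rw [hμd]; exact min_le_left _ _
  have hμ2 : μ ≤ 1 / 4 := by rw [hμd]; exact min_le_right _ _
  have hEq : ‖F (u + b)‖ = ‖F (u - b)‖ := by
    unfold GG at hu0
    have h7 : c * F (u + b) = -(d * F (u - b)) := by linear_combination hu0
    have h8 := congrArg norm h7
    rw [norm_neg, norm_mul, norm_mul, hc, hd, one_mul, one_mul] at h8
    exact h8
  have e1 : (u + (b : ℂ)).re = u.re + b := by simp
  have e2 : (u + (b : ℂ)).im = u.im := by simp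
  have e3 : (u - (b : ℂ)).re = u.re - b := by simp
  have e4 : (u - (b : ℂ)).im = u.im := by simp
  have a1 := hF.lo (u + b) (by rw [e1]; linarith) (by rw [e1]; linarith) (by rw [e2]; linarith)
  have a2 := hF.abs (u - b) (by rw [e3, abs_le]; constructor <;> linarith) (by rw [e4]; linarith)
  rw [e1, hEq] at a1
  rw [e3] at a2
  have k3 := a1.trans a2
  rw [Real.exp_le_exp] at k3
  have k4 : max |u.re - b| (1 / 2) ≤ u.re + b - μ := by
    apply max_le
    · rw [abs_le]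
      constructor <;> linarith
    · linarith
  have k5 : L * (max |u.re - b| (1 / 2) + ε) ≤ L * (u.re + b - μ + ε) :=
    mul_le_mul_of_nonneg_left (by linarith) hL.le
  have k6 : L * (u.re + b - μ + ε) < L * (u.re + b - ε) := mul_lt_mul_of_pos_left (by linarith) hL
  linarith

end Pool.Agent.Hp428.NLoc
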