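import Pool.Agent.Hp428.NL.Zeta
import Pool.Agent.H353R6.E14

set_option autoImplicit false

/-!
# Simple zeros on the line
-/

namespace Pool.Agent.Hp428.NL

open Complex Filter Topology Set
open Pool.Agent.H24R2.JP (XX HH Om)
open Pool.Agent.W186.HZ
open Pool.Agent.Hp428.LS (GG GG_diff UBm FT FT_norm HH_pos XX_sym XX_at ub_half YY YY_GG YY_diff YY_sym YY_strip
  YY_ne GG_zero cn cn')
open scoped ComplexConjugate

/-- the norm grows along a horizontal segment -/
lemma norm_mono {F : ℂ → ℂ} (hF : Differentiable ℂ F) {p q : ℝ} (hpq : p < q)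
    (h : ∀ t : ℝ, t ∈ Icc p q → F t ≠ 0 ∧ 0 < (logDeriv F t).re) : ‖F p‖ < ‖F q‖ := by
  have hd : ∀ t : ℝ, HasDerivAt (fun t : ℝ => ‖F t‖ ^ 2) (2 * inner ℝ (F t) (deriv F t)) t := fun t =>
    ((hF t).hasDerivAt.comp_ofReal).norm_sq
  have hmono : StrictMonoOn (fun t : ℝ => ‖F t‖ ^ 2) (Icc p q) := by
    refine strictMonoOn_of_deriv_pos (convex_Icc p q)
      (fun t _ => (hd t).continuousAt.continuousWithinAt) fun t ht => ?_
    rw [interior_Icc] at ht
    obtain ⟨h1, h2⟩ := h t ⟨ht.1.le, ht.2.le⟩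
    rw [(hd t).deriv]
    have e1 : inner ℝ (F t) (deriv F t) = ‖F t‖ ^ 2 * (logDeriv F t).re := by
      rw [Complex.inner, logDeriv_apply]
      have e2 : deriv F t = F t * (deriv F t / F t) := by field_simp
      conv_lhs => rw [e2]
      have e3 : conj (F t) * (F t * (deriv F t / F t)) = ((‖F t‖ ^ 2 : ℝ) : ℂ) * (deriv F t / F t) := by
        rw [← mul_assoc, mul_comm (conj (F t)), Complex.mul_conj, Complex.normSq_eq_norm_sq]
      have e4 : F t * (deriv F t / F t) * conj (F t) = ((‖F t‖ ^ 2 : ℝ) : ℂ) * (deriv F t / F t) := by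
        rw [← e3]; ring
      first
        | rw [e3, Complex.re_ofReal_mul]
        | rw [e4, Complex.re_ofReal_mul]
    rw [e1]
    have : 0 < ‖F t‖ := norm_pos_iff.2 h1
    positivity
  have := hmono (left_mem_Icc.2 hpq.le) (right_mem_Icc.2 hpq.le) hpq
  exact lt_of_pow_lt_pow_left₀ 2 (norm_nonneg _) this

lemma XXd : Differentiable ℂ XX := Pool.Agent.H24R2.JP.B1h.XX_diff

lemma logDeriv_FT {T : ℝ} (hT : 0 < T) (u : ℂ) : logDeriv (FT T) u = logDeriv XX (I * T + u) := by
  have hc : ((‖HH (I * T)‖⁻¹ : ℝ) : ℂ) ≠ 0 := by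
    rw [Complex.ofReal_ne_zero]
    exact (inv_pos.2 (HH_pos hT)).ne'
  have h1 : deriv (FT T) u = deriv XX (I * T + u) * ((‖HH (I * T)‖⁻¹ : ℝ) : ℂ) := by
    have h2 : HasDerivAt (FT T) (deriv XX (I * T + u) * ((‖HH (I * T)‖⁻¹ : ℝ) : ℂ)) u := by
      unfold FT
      have h3 : HasDerivAt (fun u : ℂ => XX (I * (T : ℂ) + u)) (deriv XX (I * T + u)) u := by
        have := (XXd (I * T + u)).hasDerivAt.comp_const_add (I * (T : ℂ)) u
        exact this
      exact h3.mul_const _
    exact h2.deriv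
  rw [logDeriv_apply, logDeriv_apply, h1]
  unfold FT
  rw [mul_div_mul_right _ _ hc]

lemma logDeriv_sym (w : ℂ) : logDeriv XX (-conj w) = -conj (logDeriv XX w) := by
  have hfe : ∀ s : ℂ, XX s = 1 * conj (XX (-conj s)) := fun s => by
    rw [one_mul, XX_sym, Complex.conj_conj]
  have h1 := H353.E.fe_deriv0 XXd hfe w
  rw [logDeriv_apply, logDeriv_apply, XX_sym, h1, map_div₀]
  simp only [neg_mul, one_mul, map_neg, Complex.conj_conj]
  rw [neg_div, neg_neg]

/-- **Simple zeros on the line.** -/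
theorem fin_of_sz {b0 b : ℝ} (hb0 : 0 ≤ b0) (hb : b0 < b) (hb1 : b < 1 / 2) (h : SZ b0) :
    ∃ T0 : ℝ, ∀ (θ : ℝ) (z : ℂ), YY θ b z = 0 → T0 ≤ z.im → z.re = 0 ∧ deriv (YY θ b) z ≠ 0 := by
  have hbp : 0 < b := by linarith
  obtain ⟨g, hg⟩ : ∃ g : ℝ, g = (b - b0) / 2 := ⟨_, rfl⟩
  have hg0 : 0 < g := by rw [hg]; linarith
  have hsz : SZ b := by
    intro δ hδ
    obtain ⟨T0, h0⟩ := h δ hδ
    exact ⟨T0, fun z hz hT => (h0 z hz hT).trans (by linarith)⟩
  obtain ⟨T1, h1⟩ := ny_of_sz hbp hb1 hsz g hg0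
  obtain ⟨T2, hT2, h2⟩ := prof_sz hb0 h g (1 / 2) 3 hg0 (by norm_num) (by norm_num)
  obtain ⟨T3, hT3, h3⟩ := Om_large 1
  refine ⟨max T1 (max T2 T3), fun θ z hz hT => ?_⟩
  have g1 : T1 ≤ z.im := (le_max_left _ _).trans hT
  have g2 : T2 ≤ z.im := ((le_max_left _ _).trans (le_max_right _ _)).trans hT
  have g3 := h3 z.im (((le_max_right _ _).trans (le_max_right _ _)).trans hT)
  have hTp : 0 < z.im := by linarith
  have hx1 := h1 θ z hz g1
  have hprof : ∀ t : ℝ, b - g ≤ t → t ≤ 3 → FT z.im t ≠ 0 ∧ 0 < (logDeriv (FT z.im) t).re := by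
    intro t t1 t2
    obtain ⟨k1, -, k3⟩ := h2 z.im g2 (t : ℂ) (by rw [Complex.ofReal_re]; linarith)
      (by rw [Complex.ofReal_re]; exact t2) (by rw [Complex.ofReal_im, abs_zero]; norm_num)
    constructor
    · intro h0
      rw [h0, norm_zero] at k1
      have := Real.exp_pos (Om z.im * ((t : ℂ).re - 1 / 2))
      linarith
    · have k4 := (Complex.abs_re_le_norm _).trans k3
      rw [Complex.sub_re, Complex.ofReal_re, abs_le] at k4
      linarith
  have hre : z.re = 0 := by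
    by_contra hcon
    have hxp : 0 < |z.re| := abs_pos.2 hcon
    obtain ⟨w, hw, hwr, hwi⟩ : ∃ w : ℂ, YY θ b w = 0 ∧ w.re = |z.re| ∧ w.im = z.im := by
      rcases le_total 0 z.re with h4 | h4
      · exact ⟨z, hz, (abs_of_nonneg h4).symm, rfl⟩
      · refine ⟨-conj z, by rw [YY_sym, hz, map_zero], ?_, by simp⟩
        rw [abs_of_nonpos h4]
        simp
    obtain ⟨x, hx⟩ : ∃ x : ℝ, x = |z.re| := ⟨_, rfl⟩
    rw [← hx] at hxp hx1 hwr
    have hw2 : w = I * (z.im : ℂ) + (x : ℂ) := by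
      apply Complex.ext
      · simp [hwr]
      · simp [hwi]
    have h5 : GG (cexp (θ * I)) (cexp (-(θ * I))) b (FT z.im) x = 0 := by
      rw [GG_zero θ b hTp, ← hw2]
      exact hw
    unfold GG at h5
    have h6 : ‖FT z.im (x + b)‖ = ‖FT z.im (x - b)‖ := by
      have h7 : cexp (θ * I) * FT z.im (x + b) = -(cexp (-(θ * I)) * FT z.im (x - b)) := by
        linear_combination h5
      have h8 := congrArg norm h7
      rw [norm_neg, norm_mul, norm_mul, cn, cn', one_mul, one_mul] at h8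
      exact h8
    have h9 : ‖FT z.im (x - b)‖ = ‖FT z.im ((b - x : ℝ) : ℂ)‖ := by
      have e3 : FT z.im (x - b) = conj (FT z.im ((b - x : ℝ) : ℂ)) := by
        unfold FT
        have e : I * (z.im : ℂ) + ((x : ℂ) - b) = -conj (I * (z.im : ℂ) + ((b - x : ℝ) : ℂ)) := by
          apply Complex.ext
          · simp
          · simp
        rw [e, XX_sym, map_mul, Complex.conj_ofReal]
      rw [e3, Complex.norm_conj]
    have e1 : ((x : ℂ) + b) = ((b + x : ℝ) : ℂ) := by push_cast; ring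
    rw [h9, e1] at h6
    have hdiff : Differentiable ℂ (FT z.im) := by
      unfold FT
      exact (XXd.comp (by fun_prop : Differentiable ℂ fun u : ℂ => I * (z.im : ℂ) + u)).mul_const _
    have := norm_mono hdiff (p := b - x) (q := b + x) (by linarith) (fun t ht =>
      hprof t (by linarith [ht.1]) (by linarith [ht.2]))
    linarith
  refine ⟨hre, ?_⟩
  -- the derivative
  have hz2 : z = I * (z.im : ℂ) := by
    apply Complex.ext
    · simp [hre]
    · simp
  obtain ⟨k1, k2⟩ := hprof b (by linarith) (by linarith)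
  rw [logDeriv_FT hTp, ← hz2] at k2
  have hX0 : XX (z + b) ≠ 0 := by
    intro h0
    apply k1
    rw [FT_zero hTp, ← hz2]
    exact h0
  have hsym : z - b = -conj (z + b) := by
    apply Complex.ext
    · simp [hre]
    · simp
  have hXm : XX (z - b) = conj (XX (z + b)) := by rw [hsym, XX_sym]
  have hXm0 : XX (z - b) ≠ 0 := by
    rw [hXm]
    exact (map_ne_zero _).2 hX0
  have hl : logDeriv XX (z - b) = -conj (logDeriv XX (z + b)) := by rw [hsym, logDeriv_sym]
  have hder : deriv (YY θ b) z = cexp (θ * I) * deriv XX (z + b) + cexp (-(θ * I)) * deriv XX (z - b) := by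
    have h1 : HasDerivAt (fun w : ℂ => XX (w + b)) (deriv XX (z + b)) z :=
      (XXd (z + b)).hasDerivAt.comp_add_const z (b : ℂ)
    have h2 : HasDerivAt (fun w : ℂ => XX (w - b)) (deriv XX (z - b)) z :=
      (XXd (z - b)).hasDerivAt.comp_sub_const z (b : ℂ)
    exact ((h1.const_mul (cexp (θ * I))).add (h2.const_mul (cexp (-(θ * I))))).deriv
  have d1 : deriv XX (z + b) = XX (z + b) * logDeriv XX (z + b) := by
    rw [logDeriv_apply]; field_simp
  have d2 : deriv XX (z - b) = XX (z - b) * logDeriv XX (z - b) := by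
    rw [logDeriv_apply]; field_simp
  have hz0 : cexp (θ * I) * XX (z + b) + cexp (-(θ * I)) * XX (z - b) = 0 := hz
  have hfin : deriv (YY θ b) z = cexp (θ * I) * XX (z + b) * ((2 * (logDeriv XX (z + b)).re : ℝ) : ℂ) := by
    rw [hder, d1, d2, hl]
    have e5 : ((2 * (logDeriv XX (z + b)).re : ℝ) : ℂ) = logDeriv XX (z + b) + conj (logDeriv XX (z + b)) := by
      rw [Complex.add_conj]
    rw [e5]
    linear_combination (-conj (logDeriv XX (z + b))) * hz0
  rw [hfin]
  refine mul_ne_zero (mul_ne_zero (Complex.exp_ne_zero _) hX0) ?_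
  rw [Complex.ofReal_ne_zero]
  linarith

end Pool.Agent.Hp428.NL
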